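import Pool.Agent.N557.CV.Stm

/-!
# Project CV, leaf LBA: first lower bound for the norm of `f^*` (helper933 for helper557)
-/

set_option autoImplicit false

namespace Pool.Agent.N933.CV

open Pool.Agent.N557.CV
open scoped ENNReal

variable {G : Type*} [Group G] {a b : G} {P : G → Prop}

theorem ex_in (h : PP a b P) : ∃ x, P x := by
  by_cases h1 : P 1
  · exact ⟨1, h1⟩
  · exact ⟨_, h.1 1 1 one_ne_zero h1⟩

theorem ex_out (h : PP a b P) : ∃ x, ¬ P x := by
  by_cases h1 : P 1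
  · exact ⟨_, h.2 1 1 one_ne_zero h1⟩
  · exact ⟨1, h1⟩

theorem pow_a (h : PP a b P) (k : ℤ) (hk : a ^ k = 1) : k = 0 := by
  by_contra h0
  obtain ⟨x, hx⟩ := ex_out h
  have := h.1 k x h0 hx
  rw [hk, one_mul] at this
  exact hx this

theorem pow_b (h : PP a b P) (k : ℤ) (hk : b ^ k = 1) : k = 0 := by
  by_contra h0
  obtain ⟨x, hx⟩ := ex_in h
  have := h.2 k x h0 hx
  rw [hk, one_mul] at this
  exact this hx

theorem pow_ab (h : PP a b P) (k l : ℤ) (hk : b ^ k = a ^ l) : k = 0 ∧ l = 0 := by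
  by_cases h0 : k = 0
  · subst h0
    rw [zpow_zero] at hk
    exact ⟨rfl, pow_a h l hk.symm⟩
  · by_cases h1 : l = 0
    · subst h1
      rw [zpow_zero] at hk
      exact ⟨pow_b h k hk, rfl⟩
    · exfalso
      obtain ⟨x, hx⟩ := ex_in h
      have e1 := h.2 k x h0 hx
      have e2 := h.1 l _ h1 e1
      have e3 := h.2 (k + k) x (by omega) hx
      rw [zpow_add, mul_assoc] at e3
      rw [← hk] at e2
      exact e3 e2

theorem inj (h : PP a b P) (j r j' r' : ℕ) (he : (b ^ j)⁻¹ * a ^ r = (b ^ j')⁻¹ * a ^ r') :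
    j = j' ∧ r = r' := by
  have e1 : b ^ ((j' : ℤ) - j) = a ^ ((r' : ℤ) - r) := by
    rw [zpow_sub, zpow_sub, zpow_natCast, zpow_natCast, zpow_natCast, zpow_natCast]
    have e2 : b ^ j' * ((b ^ j)⁻¹ * a ^ r) = a ^ r' := by
      rw [he, mul_inv_cancel_left]
    rw [← e2]
    group
  obtain ⟨h1, h2⟩ := pow_ab h _ _ e1
  omega

theorem t_lba : Pool.Agent.N557.CV.S_LBA := by
  classical
  intro G _ a b P h p hp n m hn hm
  refine ⟨(Finset.range (2 * n)).image fun l => a ^ l, ?_, ?_⟩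
  · exact ⟨_, Finset.mem_image_of_mem _ (Finset.mem_range.2 (by omega : 0 < 2 * n))⟩
  · obtain ⟨I, hI⟩ : ∃ I : Finset G, I = (Finset.range (2 * n)).image fun l => a ^ l := ⟨_, rfl⟩
    rw [← hI]
    have hcard : (I.card : ℝ≥0∞) ≤ 2 * n := by
      have h1 : I.card ≤ 2 * n := by
        rw [hI]
        exact Finset.card_image_le.trans (by rw [Finset.card_range])
      exact_mod_cast h1
    obtain ⟨S, hS⟩ : ∃ S : Finset G, S = (Finset.range m ×ˢ Finset.range (n + 1)).image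
      fun q : ℕ × ℕ => (b ^ q.1)⁻¹ * a ^ q.2 := ⟨_, rfl⟩
    have hSc : S.card = m * (n + 1) := by
      rw [hS, Finset.card_image_of_injOn, Finset.card_product, Finset.card_range,
        Finset.card_range]
      rintro ⟨j, r⟩ _ ⟨j', r'⟩ _ he
      obtain ⟨h1, h2⟩ := inj h j r j' r' he
      rw [h1, h2]
    have hpt : ∀ x ∈ S, (n : ℝ≥0∞) ^ p ≤ (∑ i ∈ Finset.range n, ∑ j ∈ Finset.range m,
        if a ^ i * b ^ j * x ∈ I then (1 : ℝ≥0∞) else 0) ^ p := by
      intro x hx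
      rw [hS, Finset.mem_image] at hx
      obtain ⟨⟨j, r⟩, hjr, rfl⟩ := hx
      rw [Finset.mem_product, Finset.mem_range, Finset.mem_range] at hjr
      refine ENNReal.rpow_le_rpow ?_ (by linarith)
      calc (n : ℝ≥0∞) = ∑ i ∈ Finset.range n, (1 : ℝ≥0∞) := by
            rw [Finset.sum_const, Finset.card_range, nsmul_eq_mul, mul_one]
        _ ≤ _ := by
          refine Finset.sum_le_sum fun i hi => ?_
          rw [Finset.mem_range] at hi
          have h2 : a ^ i * b ^ j * ((b ^ j)⁻¹ * a ^ r) ∈ I := by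
            rw [hI, Finset.mem_image]
            refine ⟨i + r, Finset.mem_range.2 (by omega), ?_⟩
            rw [pow_add]
            group
          have h3 : (if a ^ i * b ^ j * ((b ^ j)⁻¹ * a ^ r) ∈ I then (1 : ℝ≥0∞) else 0) ≤
              ∑ j' ∈ Finset.range m, if a ^ i * b ^ j' * ((b ^ j)⁻¹ * a ^ r) ∈ I
                then (1 : ℝ≥0∞) else 0 :=
            Finset.single_le_sum (f := fun j' => if a ^ i * b ^ j' * ((b ^ j)⁻¹ * a ^ r) ∈ I
              then (1 : ℝ≥0∞) else 0) (fun _ _ => zero_le) (Finset.mem_range.2 hjr.1)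
          rw [if_pos h2] at h3
          exact h3
    have hsum : ((m : ℝ≥0∞) * (n + 1)) * (n : ℝ≥0∞) ^ p ≤ ∑' x, (∑ i ∈ Finset.range n,
        ∑ j ∈ Finset.range m, if a ^ i * b ^ j * x ∈ I then (1 : ℝ≥0∞) else 0) ^ p := by
      refine le_trans ?_ (ENNReal.sum_le_tsum S)
      refine le_trans (le_of_eq ?_) (Finset.sum_le_sum hpt)
      rw [Finset.sum_const, hSc, nsmul_eq_mul]
      push_cast
      rfl
    calc (m : ℝ≥0∞) * (n : ℝ≥0∞) ^ p * (I.card : ℝ≥0∞) ≤ m * (n : ℝ≥0∞) ^ p * (2 * n) := by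
          gcongr
      _ = 2 * ((m * n) * (n : ℝ≥0∞) ^ p) := by ring
      _ ≤ 2 * ((m * (n + 1)) * (n : ℝ≥0∞) ^ p) := by
          gcongr
          exact le_self_add
      _ ≤ _ := by gcongr

end Pool.Agent.N933.CV
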